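import Pool.Agent.W743.BE.Fin
import Pool.Agent.W743.BE.OutFin

/-!
# Affine involutions on the tangent lines of ovals parametrised by functions of order less than one

The case of MP_ae5b4e_an in which all `σ_p` are the point reflections in `p` (outer billiards),
the leaves are the level sets of a real analytic function near `γ`, and `γ` is parametrised by a
function of order less than one.  Uses the starting theorem on the regularity of the complexified
curve (`H719FX.fin_ofo`, projects CZ and FX).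
-/

open Complex Set

namespace Pool.Agent.Results.MP_ae5b4e_an.OuterEntireOvals

/-- `γ` is a closed plane curve with positive continuous radius of curvature `ρ`, parametrised by
its normal angle: `γ'(s) = ρ(s) i e^{is}`; the outer unit normal at `γ s` is `e^{is}`. -/
def IsOval (γ : ℝ → ℂ) (ρ : ℝ → ℝ) : Prop :=
  (∀ s, γ (s + 2 * Real.pi) = γ s) ∧ Continuous ρ ∧ (∀ s, 0 < ρ s) ∧
    ∀ s : ℝ, HasDerivAt γ ((ρ s : ℂ) * I * cexp (s * I)) s

/-- the point at signed distance `δ` from `γ s` on the tangent line at `γ s` -/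
noncomputable def tangentPoint (γ : ℝ → ℂ) (s δ : ℝ) : ℂ := γ s + δ * (I * cexp (s * I))

/-- `K(x, y)` is a nonconstant real analytic first integral of the outer billiard about `γ` near
`γ`: it is analytic and nonconstant on a connected neighbourhood `U` of `γ`, and for every `s` it
has the same value at the two points at distance `δ` from `γ s` on the tangent line at `γ s`, which
the reflection in `γ s` exchanges, for all small `δ > 0`. -/
def IsIntegralNear (γ : ℝ → ℂ) (K : ℝ → ℝ → ℝ) (U : Set (ℝ × ℝ)) : Prop :=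
  IsOpen U ∧ IsPreconnected U ∧ (∀ s, ((γ s).re, (γ s).im) ∈ U) ∧
    AnalyticOnNhd ℝ (Function.uncurry K) U ∧
    (∀ s : ℝ, ∃ ε > 0, ∀ δ : ℝ, 0 < δ → δ < ε →
      K (tangentPoint γ s δ).re (tangentPoint γ s δ).im
        = K (tangentPoint γ s (-δ)).re (tangentPoint γ s (-δ)).im) ∧
    ∃ z ∈ U, ∃ w ∈ U, K z.1 z.2 ≠ K w.1 w.2

/-- `γ` is parametrised by a function of order less than one in `e^{it}`: there are a function `G`
holomorphic on `ℂ ∖ {0}` with `|G(w)| ≤ exp (A (|w|^σ + |w|^{-σ}))`, `0 ≤ σ < 1`, and a continuous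
surjective change of parameter `θ` with `γ(θ(t)) = G(e^{it})` for all real `t`.  (In terms of the
Fourier coefficients of `t ↦ γ(θ(t))`: `|c_k| ≤ C |k|^{-λ|k|}` for some `λ > 1`.) -/
def HasEntireParametrization (γ : ℝ → ℂ) : Prop :=
  ∃ (G : ℂ → ℂ) (A σ : ℝ) (θ : ℝ → ℝ), DifferentiableOn ℂ G {0}ᶜ ∧ 0 ≤ σ ∧ σ < 1 ∧
    (∀ w : ℂ, w ≠ 0 → ‖G w‖ ≤ Real.exp (A * (‖w‖ ^ σ + ‖w‖ ^ (-σ)))) ∧
    Continuous θ ∧ Function.Surjective θ ∧ ∀ t : ℝ, γ (θ t) = G (cexp (t * I))

/-- the conic of the homothetic pencil: the set of the points `(x, y)` with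
`a (x - u)² + 2 b (x - u) (y - v) + d (y - v)² = l`, where `c = u + iv` -/
def conic (c : ℂ) (a b d l : ℝ) : Set ℂ :=
  {x : ℂ | a * (x.re - c.re) ^ 2 + 2 * b * (x.re - c.re) * (x.im - c.im)
      + d * (x.im - c.im) ^ 2 = l}

lemma tangentPoint_re (γ : ℝ → ℂ) (s δ : ℝ) :
    (tangentPoint γ s δ).re = (γ s).re - δ * Real.sin s := by
  simp [tangentPoint, Complex.exp_ofReal_mul_I_re, Complex.exp_ofReal_mul_I_im]
  ring

lemma tangentPoint_im (γ : ℝ → ℂ) (s δ : ℝ) :
    (tangentPoint γ s δ).im = (γ s).im + δ * Real.cos s := by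
  simp [tangentPoint, Complex.exp_ofReal_mul_I_re, Complex.exp_ofReal_mul_I_im]

lemma oInt {γ : ℝ → ℂ} {K : ℝ → ℝ → ℝ} {U : Set (ℝ × ℝ)} (h : IsIntegralNear γ K U) :
    H719FX.OInt γ K U := by
  obtain ⟨h1, h2, h3, h4, h5, z, hz, w, hw, hne⟩ := h
  refine ⟨h1, h2, h3, h4, fun s => ?_, ?_⟩
  · obtain ⟨ε, hε, h⟩ := h5 s
    refine ⟨ε, hε, fun δ hδ hδ' => ?_⟩
    have := h δ hδ hδ'
    simpa [tangentPoint_re, tangentPoint_im, sub_eq_add_neg] using this
  · rintro ⟨c, hc⟩
    exact hne ((hc z hz).trans (hc w hw).symm)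

/-- Let `γ` be an oval parametrised by a function of order less than one in `e^{it}`, and let `K`
be a nonconstant real analytic function near `γ` whose level sets are exchanged by the point
reflections of the tangent lines in the points of tangency.  Then `γ` is an ellipse, and `K` is
constant on every ellipse of the homothetic pencil of `γ` close to `γ` outside it. -/
theorem result : ∀ (γ : ℝ → ℂ) (ρ : ℝ → ℝ), IsOval γ ρ → HasEntireParametrization γ →
    ∀ (K : ℝ → ℝ → ℝ) (U : Set (ℝ × ℝ)), IsIntegralNear γ K U →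
    ∃ (c : ℂ) (a b d : ℝ), 0 < a ∧ 0 < a * d - b ^ 2 ∧ Set.range γ = conic c a b d 1 ∧
      ∃ η > 0, ∀ l : ℝ, 1 ≤ l → l < 1 + η → ∃ κ : ℝ, ∀ x ∈ conic c a b d l,
        (x.re, x.im) ∈ U ∧ K x.re x.im = κ := by
  rintro γ ρ ⟨h1, h2, h3, h4⟩ ⟨G, A, σ, θ, hG, hσ, hσ1, hb, hθ, hθs, hγ⟩ K U hK
  obtain ⟨d1, d2, d3⟩ := Pool.Agent.W743.BE.of_punctured hσ hG hb
  obtain ⟨c, a, b, d, ha, hdet, hr, η, hη, hl⟩ := Pool.Agent.W743.BE.main_out
    ⟨h1, h2, h3, h4⟩ (oInt hK) hσ hσ1 d1 d2 d3 hθ hθs hγ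
  refine ⟨c, a, b, d, ha, hdet, hr, η, hη, fun l hl1 hl2 => ?_⟩
  obtain ⟨κ, hκ⟩ := hl l hl1 hl2
  exact ⟨κ, fun x hx => hκ x.re x.im hx⟩

end Pool.Agent.Results.MP_ae5b4e_an.OuterEntireOvals
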